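import Pool.Agent.H902.SM.Crit
import Pool.Agent.H902.CB.Orbit

set_option autoImplicit false

/-!
# Independence for `D - F` implies independence for `D`, and the classes `(d; d - 2 m, m, …, m)`
-/

namespace Pool.Agent.H902.SM

open MvPolynomial Pool.Agent.H248R5 Pool.Agent.H248R6

variable {K : Type} [Field K]

/-- A form of degree `e` with a given jet at `c`. -/
theorem jet (c : Fin 2 → K) (g : MvPolynomial (Fin 2) K) {v e : ℕ} (hv : v ≤ e + 1) :
    ∃ F : MvPolynomial (Fin 3) K, F.IsHomogeneous e ∧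
      tau c F - g ∈ (idealOfVars (Fin 2) K) ^ v := by
  classical
  let s : Fin 2 → MvPolynomial (Fin 3) K := fun a => X (Fin.castSucc a) - C (c a) * X 2
  let T : ℕ → MvPolynomial (Fin 3) K := fun k =>
    aeval s (homogeneousComponent k g) * X 2 ^ (e - k)
  have hT : ∀ k, k ≤ e → (T k).IsHomogeneous e := by
    intro k hk
    have h1 : (aeval s (homogeneousComponent k g)).IsHomogeneous (1 * k) :=
      (homogeneousComponent_isHomogeneous k g).aeval s (fun a => homog_sub c a)
    have h2 := h1.mul ((isHomogeneous_X K (2 : Fin 3)).pow (e - k))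
    rwa [one_mul, one_mul, Nat.add_sub_cancel' hk] at h2
  have htau : ∀ k, tau c (T k) = homogeneousComponent k g := by
    intro k
    show tau c (aeval s (homogeneousComponent k g) * X 2 ^ (e - k)) = _
    rw [map_mul, map_pow, tau_X2, one_pow, mul_one]
    have h3 : (tau c).comp (aeval s) = AlgHom.id K (MvPolynomial (Fin 2) K) := by
      refine MvPolynomial.algHom_ext fun a => ?_
      rw [AlgHom.comp_apply, aeval_X, AlgHom.id_apply]
      exact tau_sub c a
    exact AlgHom.congr_fun h3 _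
  refine ⟨∑ k ∈ Finset.range v, T k, IsHomogeneous.sum _ _ _ fun k hk => hT k ?_, ?_⟩
  · have := Finset.mem_range.1 hk
    omega
  · rw [mem_pow_idealOfVars_iff']
    intro x hx
    rw [map_sum, Finset.sum_congr rfl fun k _ => htau k, coeff_sub, coeff_sum,
      Finset.sum_eq_single x.degree]
    · rw [coeff_homogeneousComponent, if_pos rfl, sub_self]
    · intro k _ hk
      rw [coeff_homogeneousComponent, if_neg (Ne.symm hk)]
    · intro h
      exact absurd (Finset.mem_range.2 hx) h

/-- A line through `P p` which does not contain the other points. -/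
theorem exists_line [Infinite K] {n : ℕ} {P : Fin n → Fin 2 → K} (hinj : Function.Injective P)
    (p : Fin n) : ∃ t : K, ∀ j, j ≠ p → constantCoeff (tau (P j) (fib (P p) t 1)) ≠ 0 := by
  classical
  obtain ⟨t, ht⟩ := Infinite.exists_notMem_finset
    (Finset.univ.image fun j => -(P j 1 - P p 1) / (P j 0 - P p 0))
  refine ⟨t, fun j hj h => ?_⟩
  rw [cc_fib] at h
  by_cases h0 : P j 0 - P p 0 = 0
  · rw [h0, mul_zero, zero_add, one_mul] at h
    apply hj
    apply hinj
    funext a
    fin_cases a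
    · exact sub_eq_zero.1 h0
    · exact sub_eq_zero.1 h
  · apply ht
    rw [Finset.mem_image]
    refine ⟨j, Finset.mem_univ j, ?_⟩
    rw [div_eq_iff h0]
    linear_combination -h

/-- Independence for `D - F` implies independence for `D`. -/
theorem surj_up [Infinite K] {n : ℕ} {v : Fin n → ℕ} {P : Fin n → Fin 2 → K}
    (hinj : Function.Injective P) {e : ℕ} {p : Fin n} (hv : v p ≤ e + 1)
    (hS : Function.Surjective (ev v P e)) :
    Function.Surjective (ev (Function.update v p (v p + 1)) P (e + 1)) := by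
  classical
  intro y
  choose g hg using fun i => Ideal.Quotient.mk_surjective (y i)
  obtain ⟨t, ht⟩ := exists_line hinj p
  obtain ⟨F0, hF0, hF0'⟩ := jet (P p) (g p) (v := v p + 1) (e := e + 1) (by omega)
  set l := fib (P p) t 1 with hl
  have hu : ∀ j, ∃ h : MvPolynomial (Fin 2) K, (j = p → h = 0) ∧
      (j ≠ p → tau (P j) l * h - (g j - tau (P j) F0) ∈ (idealOfVars (Fin 2) K) ^ (v j)) := by
    intro j
    by_cases hj : j = p
    · exact ⟨0, fun _ => rfl, fun h => absurd hj h⟩
    · obtain ⟨u, hu⟩ := isUnit_mk (w := v j) (ht j hj)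
      obtain ⟨h, hh⟩ := Ideal.Quotient.mk_surjective
        ((↑u⁻¹ : MvPolynomial (Fin 2) K ⧸ (idealOfVars (Fin 2) K) ^ (v j)) *
          Ideal.Quotient.mk ((idealOfVars (Fin 2) K) ^ (v j)) (g j - tau (P j) F0))
      refine ⟨h, fun h' => absurd h' hj, fun _ => ?_⟩
      rw [← Ideal.Quotient.eq_zero_iff_mem, map_sub, map_mul, hh, ← hu, ← mul_assoc, Units.mul_inv,
        one_mul, sub_self]
  choose h h1 h2 using hu
  obtain ⟨⟨H, hH⟩, hHy⟩ := hS fun j => Ideal.Quotient.mk _ (h j)
  have hHm : H.IsHomogeneous e := hH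
  have key : ∀ j, tau (P j) H - h j ∈ (idealOfVars (Fin 2) K) ^ (v j) := by
    intro j
    have h5 := congrFun hHy j
    rw [ev_apply] at h5
    exact Ideal.Quotient.eq.1 h5
  have hG : (F0 + l * H).IsHomogeneous (e + 1) := by
    refine hF0.add ?_
    have := (fib_homog (P p) t 1).mul hHm
    rwa [add_comm] at this
  refine ⟨⟨F0 + l * H, hG⟩, funext fun j => ?_⟩
  rw [ev_apply, ← hg j, Ideal.Quotient.eq]
  show tau (P j) (F0 + l * H) - g j ∈ _
  rw [map_add, map_mul]
  by_cases hj : j = p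
  · subst hj
    rw [Function.update_self]
    have h5 := key j
    rw [h1 j rfl, sub_zero] at h5
    have hc : constantCoeff (tau (P j) l) = 0 := by
      rw [hl, cc_fib]
      ring
    have h6 := Ideal.mul_mem_mul (mem_one hc) h5
    rw [← pow_succ'] at h6
    have e1 : tau (P j) F0 + tau (P j) l * tau (P j) H - g j =
        (tau (P j) F0 - g j) + tau (P j) l * tau (P j) H := by ring
    rw [e1]
    exact Ideal.add_mem _ hF0' h6
  · rw [Function.update_of_ne hj]
    have e1 : tau (P j) F0 + tau (P j) l * tau (P j) H - g j =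
        (tau (P j) l * h j - (g j - tau (P j) F0)) + tau (P j) l * (tau (P j) H - h j) := by ring
    rw [e1]
    exact Ideal.add_mem _ (h2 j hj) (Ideal.mul_mem_left _ _ (key j))

/-- The polynomial of the general position. -/
noncomputable def gpoly (K : Type) [Field K] (n : ℕ) : MvPolynomial (Fin n × Fin 2) K :=
  ∏ p : Fin n, ∏ i : Fin n, ∏ j : Fin n, if i ≠ p ∧ j ≠ p ∧ i ≠ j then
    (X (i, 0) - X (p, 0)) * (X (j, 1) - X (p, 1)) - (X (i, 1) - X (p, 1)) * (X (j, 0) - X (p, 0))
    else 1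

theorem gpoly_ne (n : ℕ) : gpoly K n ≠ 0 := by
  classical
  unfold gpoly
  refine Finset.prod_ne_zero_iff.2 fun p _ => Finset.prod_ne_zero_iff.2 fun i _ =>
    Finset.prod_ne_zero_iff.2 fun j _ => ?_
  split_ifs with h
  · obtain ⟨h1, h2, h3⟩ := h
    intro h0
    have h4 := congrArg (eval fun q : Fin n × Fin 2 =>
      if q = (i, 0) then (1 : K) else if q = (j, 1) then 1 else 0) h0
    simp [Ne.symm h1, Ne.symm h2, h3, Ne.symm h3] at h4
  · exact one_ne_zero

theorem gp_of {n : ℕ} {P : Fin n → Fin 2 → K}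
    (h : eval (fun ij : Fin n × Fin 2 => P ij.1 ij.2) (gpoly K n) ≠ 0) : GP P := by
  classical
  intro p i j hi hj hij h0
  apply h
  unfold gpoly
  rw [map_prod]
  refine Finset.prod_eq_zero (Finset.mem_univ p) ?_
  rw [map_prod]
  refine Finset.prod_eq_zero (Finset.mem_univ i) ?_
  rw [map_prod]
  refine Finset.prod_eq_zero (Finset.mem_univ j) ?_
  rw [if_pos ⟨hi, hj, hij⟩]
  simpa using h0

/-! ## The classes `(d; d - 2 m, m, …, m)` -/

open Pool.Agent.H902.CB (vp expDim_vp chi_vp)

/-- The numerical condition: `χ (D - F) ≥ 0`. -/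
def Good (n m d : ℕ) : Prop := 2 * m < d ∧ (n - 1) * (m + 1).choose 2 ≤ (2 * m + 1) * (d - m)

theorem cond_le {n : ℕ} (hn : 1 ≤ n) (p : Fin n) {m d : ℕ} (h : Good n m (d + 1)) :
    ∑ i, (vp p m d i + 1).choose 2 ≤ (d + 2).choose 2 := by
  obtain ⟨h1, h2⟩ := h
  have h3 := chi_vp p (m := m) (d := d) (by omega)
  unfold Pool.Agent.TH167.SH.chi at h3
  have h4 : ((n - 1) * (m + 1).choose 2 : ℤ) ≤ (2 * m + 1) * ((d : ℤ) + 1 - m) := by
    have h5 : (((n - 1) * (m + 1).choose 2 : ℕ) : ℤ) ≤ (((2 * m + 1) * (d + 1 - m) : ℕ) : ℤ) := by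
      exact_mod_cast h2
    rw [Nat.cast_mul, Nat.cast_sub hn, Nat.cast_mul, Nat.cast_sub (by omega)] at h5
    push_cast at h5 ⊢
    exact h5
  have h6 : (0 : ℤ) ≤ ((d + 2).choose 2 : ℤ) - ∑ i, ((vp p m d i + 1).choose 2 : ℤ) := by
    rw [h3]
    linarith
  have h7 : ((∑ i, (vp p m d i + 1).choose 2 : ℕ) : ℤ) = ∑ i, ((vp p m d i + 1).choose 2 : ℤ) := by
    push_cast
    rfl
  rw [← h7] at h6
  omega

theorem gen_surj {n : ℕ} (hn : 9 ≤ n) (p : Fin n) {m d : ℕ} (h : Good n m (d + 1)) (L : Type)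
    [Field L] [CharZero L] (P : Fin n → Fin 2 → L)
    (hP : AlgebraicIndependent ℚ (fun ij : Fin n × Fin 2 => P ij.1 ij.2)) :
    Function.Surjective (ev (vp p m d) P d) :=
  Pool.Agent.Q78.SG.surj_of_exp (expDim_vp hn hP p (by have := h.1; omega))
    (cond_le (by omega) p h)

theorem vp_up {n : ℕ} (p : Fin n) {m d : ℕ} (h : 2 * m ≤ d) :
    vp p m (d + 1) = Function.update (vp p m d) p (vp p m d p + 1) := by
  classical
  funext i
  by_cases hi : i = p
  · subst hi
    rw [Function.update_self]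
    simp only [vp, if_true]
    omega
  · rw [Function.update_of_ne hi]
    simp only [vp, if_neg hi]

/-- **The family.** -/
theorem family {n : ℕ} (hn : 9 ≤ n) (m : ℕ) :
    ∃ F : MvPolynomial (Fin n × Fin 2) ℂ, F ≠ 0 ∧ ∀ P : Fin n → Fin 2 → ℂ,
      eval (fun ij : Fin n × Fin 2 => P ij.1 ij.2) F ≠ 0 → ∀ (p : Fin n) (d : ℕ), 2 * m < d →
        (n - 1) * (m + 1).choose 2 ≤ (2 * m + 1) * (d - m) →
        ∀ w : Fin n → ℕ, w p + 2 * m ≤ d → (∀ i, i ≠ p → w i ≤ m) →
          Module.finrank ℂ ↥(forms w P d) + ∑ i, (w i + 1).choose 2 = (d + 2).choose 2 ∧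
            GeneralMember (forms w P d) (SmoothMember w P) := by
  classical
  by_cases hex : ∃ d, Good n m d
  swap
  · exact ⟨1, one_ne_zero, fun P _ p d h1 h2 => absurd ⟨d, h1, h2⟩ hex⟩
  obtain ⟨e0, he0⟩ : ∃ e0, Nat.find hex = e0 + 1 := by
    have := (Nat.find_spec hex).1
    exact ⟨Nat.find hex - 1, by omega⟩
  have hg0 : Good n m (e0 + 1) := by
    rw [← he0]
    exact Nat.find_spec hex
  have hop := fun p => Pool.Agent.Q78.SG.surj_open (n := n) (w := vp p m e0) (d := e0)
    fun L _ _ P hP => gen_surj hn p hg0 L P hP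
  choose G hG hG' using hop
  have hmap : ∀ (Q : MvPolynomial (Fin n × Fin 2) ℚ) (P : Fin n → Fin 2 → ℂ),
      eval (fun ij : Fin n × Fin 2 => P ij.1 ij.2) (Q.map (algebraMap ℚ ℂ)) =
        aeval (fun ij : Fin n × Fin 2 => P ij.1 ij.2) Q := by
    intro Q P
    rw [eval_map, aeval_def]
  have hmap0 : ∀ Q : MvPolynomial (Fin n × Fin 2) ℚ, Q ≠ 0 → Q.map (algebraMap ℚ ℂ) ≠ 0 := by
    intro Q hQ h0
    apply hQ
    apply map_injective (algebraMap ℚ ℂ) (algebraMap ℚ ℂ).injective
    rw [h0, map_zero]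
  refine ⟨(∏ p, (G p).map (algebraMap ℚ ℂ)) * gpoly ℂ n,
    mul_ne_zero (Finset.prod_ne_zero_iff.2 fun p _ => hmap0 _ (hG p)) (gpoly_ne n),
    fun P hP p d h1 h2 w hwp hwi => ?_⟩
  rw [map_mul, map_prod] at hP
  have hgp : GP P := gp_of (right_ne_zero_of_mul hP)
  have hinj := inj_of_gp (by omega) hgp
  have hS0 : Function.Surjective (ev (vp p m e0) P e0) := by
    have h3 := Finset.prod_ne_zero_iff.1 (left_ne_zero_of_mul hP) p (Finset.mem_univ p)
    rw [hmap] at h3
    exact hG' p ℂ P h3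
  have h2m : 2 * m ≤ e0 := by
    have := hg0.1
    omega
  have hSk : ∀ k, Function.Surjective (ev (vp p m (e0 + k)) P (e0 + k)) := by
    intro k
    induction k with
    | zero => exact hS0
    | succ k ih =>
      show Function.Surjective (ev (vp p m (e0 + k + 1)) P (e0 + k + 1))
      rw [vp_up p (by omega)]
      refine surj_up hinj ?_ ih
      simp only [vp, if_true]
      omega
  have hle : e0 + 1 ≤ d := by
    rw [← he0]
    exact Nat.find_min' hex ⟨h1, h2⟩
  obtain ⟨k, rfl⟩ : ∃ k, d = e0 + k + 1 := ⟨d - 1 - e0, by omega⟩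
  constructor
  · apply finrank_of_surj
    refine surj_mono (fun i => ?_) (hSk (k + 1))
    unfold vp
    split_ifs with hi
    · subst hi
      omega
    · exact hwi i hi
  · refine smooth_of_fibre hgp hinj (p := p) ?_ (by omega) (fun i hi => ?_)
    · refine surj_mono (fun i => ?_) (hSk k)
      unfold vp
      split_ifs with hi
      · subst hi
        rw [Function.update_self]
        omega
      · rw [Function.update_of_ne hi]
        exact hwi i hi
    · have := hwi i hi
      omega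

end Pool.Agent.H902.SM
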