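import Pool.Graph.R_pool_sql_team_seeded_2aa45f1a.Q78.SG.Gen

set_option autoImplicit false

/-!
# Smooth general members from the pencil of lines through one point

Let `D = d H - ∑ w i E i` and `F = H - E p`. If the conditions of `D - F` are independent (in degree
`d - 1`), no line through `P p` contains two other points and `w p + w i ≤ d`, then the linear system
`|D|` is base point free on the blow-up and its general member is smooth.
-/

namespace Pool.Agent.H902.SM

open MvPolynomial Pool.Agent.H248R5 Pool.Agent.H248R6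

variable {K : Type} [Field K]

/-- A linear form through the point `c`. -/
noncomputable def fib (c : Fin 2 → K) (a b : K) : MvPolynomial (Fin 3) K :=
  C a * (X 0 - C (c 0) * X 2) + C b * (X 1 - C (c 1) * X 2)

theorem homog_sub (c : Fin 2 → K) (a : Fin 2) :
    (X (Fin.castSucc a) - C (c a) * X 2 : MvPolynomial (Fin 3) K).IsHomogeneous 1 :=
  (isHomogeneous_X K _).sub ((isHomogeneous_X K _).C_mul _)

theorem fib_homog (c : Fin 2 → K) (a b : K) : (fib c a b).IsHomogeneous 1 := by
  unfold fib
  exact ((homog_sub c 0).C_mul a).add ((homog_sub c 1).C_mul b)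

theorem eval_fib (c : Fin 2 → K) (a b : K) (Q : Fin 3 → K) :
    eval Q (fib c a b) = a * (Q 0 - c 0 * Q 2) + b * (Q 1 - c 1 * Q 2) := by
  simp [fib]

theorem tau_sub (c : Fin 2 → K) (a : Fin 2) :
    tau c (X (Fin.castSucc a) - C (c a) * X 2) = X a := by
  fin_cases a
  · change tau c (X 0 - C (c 0) * X 2) = X 0
    rw [map_sub, map_mul, tau_X0, tau_X2, tau_C, mul_one, add_sub_cancel_right]
  · change tau c (X 1 - C (c 1) * X 2) = X 1
    rw [map_sub, map_mul, tau_X1, tau_X2, tau_C, mul_one, add_sub_cancel_right]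

theorem tau_fib (c : Fin 2 → K) (a b : K) : tau c (fib c a b) = C a * X 0 + C b * X 1 := by
  have h0 := tau_sub c 0
  have h1 := tau_sub c 1
  change tau c (X 0 - C (c 0) * X 2) = X 0 at h0
  change tau c (X 1 - C (c 1) * X 2) = X 1 at h1
  unfold fib
  rw [map_add, map_mul, map_mul, h0, h1, tau_C, tau_C]

theorem mem_one {f : MvPolynomial (Fin 2) K} (hf : constantCoeff f = 0) :
    f ∈ idealOfVars (Fin 2) K := by
  have h4 : f ∈ (idealOfVars (Fin 2) K) ^ 1 := by
    rw [mem_pow_idealOfVars_iff']
    intro x hx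
    have hx0 : x = 0 := by
      rw [← Finsupp.degree_eq_zero_iff]
      omega
    subst hx0
    exact hf
  rwa [pow_one] at h4

theorem X_mem (a : Fin 2) : (X a : MvPolynomial (Fin 2) K) ∈ idealOfVars (Fin 2) K :=
  Ideal.subset_span ⟨a, rfl⟩

/-- A form of degree `k` with multiplicity `k` at `c` which does not vanish at `Q`. -/
theorem fac (c : Fin 2 → K) (k : ℕ) (Q : Fin 3 → K)
    (h : 0 < k → ¬ ∃ x : K, Q = x • (![c 0, c 1, 1] : Fin 3 → K)) :
    ∃ A : MvPolynomial (Fin 3) K, A.IsHomogeneous k ∧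
      tau c A ∈ (idealOfVars (Fin 2) K) ^ k ∧ eval Q A ≠ 0 := by
  rcases Nat.eq_zero_or_pos k with h0 | h0
  · subst h0
    refine ⟨1, isHomogeneous_one _ _, ?_, ?_⟩
    · rw [pow_zero, Ideal.one_eq_top]
      exact Submodule.mem_top
    · rw [map_one]
      exact one_ne_zero
  · obtain ⟨a, ha⟩ : ∃ a : Fin 2, eval Q (X (Fin.castSucc a) - C (c a) * X 2) ≠ 0 := by
      by_contra hcon
      push Not at hcon
      have e0 := hcon 0
      have e1 := hcon 1
      change eval Q (X 0 - C (c 0) * X 2) = 0 at e0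
      change eval Q (X 1 - C (c 1) * X 2) = 0 at e1
      rw [map_sub, map_mul, eval_X, eval_C, eval_X] at e0 e1
      refine h h0 ⟨Q 2, ?_⟩
      funext j
      fin_cases j
      · simp
        linear_combination e0
      · simp
        linear_combination e1
      · simp
    refine ⟨(X (Fin.castSucc a) - C (c a) * X 2) ^ k, ?_, ?_, ?_⟩
    · have := (homog_sub c a).pow k
      rwa [one_mul] at this
    · rw [map_pow, tau_sub]
      exact Ideal.pow_mem_pow (X_mem a) k
    · rw [map_pow]
      exact pow_ne_zero _ ha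

/-- The correction: `F0` is changed by a multiple of the linear form `l` through the point `P p`. -/
theorem corr {n : ℕ} {w : Fin n → ℕ} {P : Fin n → Fin 2 → K} {e : ℕ} {p : Fin n}
    (hS : Function.Surjective (ev (Function.update w p (w p - 1)) P e))
    {l F0 : MvPolynomial (Fin 3) K} (hl : l.IsHomogeneous 1)
    (hlp : constantCoeff (tau (P p) l) = 0) (hF : F0.IsHomogeneous (e + 1))
    (hFp : tau (P p) F0 ∈ (idealOfVars (Fin 2) K) ^ (w p))
    (hFj : ∀ j, j ≠ p → constantCoeff (tau (P j) l) = 0 →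
      tau (P j) F0 ∈ (idealOfVars (Fin 2) K) ^ (w j)) :
    ∃ H : MvPolynomial (Fin 3) K, H.IsHomogeneous e ∧
      tau (P p) H ∈ (idealOfVars (Fin 2) K) ^ (w p - 1) ∧
      (∀ j, j ≠ p → constantCoeff (tau (P j) l) = 0 →
        tau (P j) H ∈ (idealOfVars (Fin 2) K) ^ (w j)) ∧
      F0 - l * H ∈ forms w P (e + 1) := by
  classical
  have hu : ∀ j, ∃ h : MvPolynomial (Fin 2) K,
      (j = p → h = 0) ∧ (constantCoeff (tau (P j) l) = 0 → h = 0) ∧
      (j ≠ p → constantCoeff (tau (P j) l) ≠ 0 →
        tau (P j) F0 - tau (P j) l * h ∈ (idealOfVars (Fin 2) K) ^ (w j)) := by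
    intro j
    by_cases hj : j = p
    · exact ⟨0, fun _ => rfl, fun _ => rfl, fun h => absurd hj h⟩
    by_cases hc : constantCoeff (tau (P j) l) = 0
    · exact ⟨0, fun _ => rfl, fun _ => rfl, fun _ h => absurd hc h⟩
    · obtain ⟨u, hu⟩ := isUnit_mk (w := w j) hc
      obtain ⟨h, hh⟩ := Ideal.Quotient.mk_surjective
        ((↑u⁻¹ : MvPolynomial (Fin 2) K ⧸ (idealOfVars (Fin 2) K) ^ (w j)) *
          Ideal.Quotient.mk ((idealOfVars (Fin 2) K) ^ (w j)) (tau (P j) F0))
      refine ⟨h, fun h' => absurd h' hj, fun h' => absurd h' hc, fun _ _ => ?_⟩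
      rw [← Ideal.Quotient.eq_zero_iff_mem, map_sub, map_mul, hh, ← hu, ← mul_assoc, Units.mul_inv,
        one_mul, sub_self]
  choose h h1 h2 h3 using hu
  obtain ⟨⟨H, hH⟩, hHy⟩ := hS fun j => Ideal.Quotient.mk _ (h j)
  have hHm : H.IsHomogeneous e := hH
  have key : ∀ j, tau (P j) H - h j ∈
      (idealOfVars (Fin 2) K) ^ (Function.update w p (w p - 1) j) := by
    intro j
    have h5 := congrFun hHy j
    rw [ev_apply] at h5
    exact Ideal.Quotient.eq.1 h5
  have kp : tau (P p) H ∈ (idealOfVars (Fin 2) K) ^ (w p - 1) := by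
    have h5 := key p
    rwa [Function.update_self, h1 p rfl, sub_zero] at h5
  have kj : ∀ j, j ≠ p → tau (P j) H - h j ∈ (idealOfVars (Fin 2) K) ^ (w j) := by
    intro j hj
    have h5 := key j
    rwa [Function.update_of_ne hj] at h5
  refine ⟨H, hHm, kp, fun j hj hc => ?_, mem_forms.2 ⟨hF.sub ?_, fun j => ?_⟩⟩
  · have h5 := kj j hj
    rwa [h2 j hc, sub_zero] at h5
  · have := hl.mul hHm
    rwa [add_comm] at this
  · rw [map_sub, map_mul]
    by_cases hj : j = p
    · subst hj
      refine Ideal.sub_mem _ hFp ?_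
      have h5 := Ideal.mul_mem_mul (mem_one hlp) kp
      rw [← pow_succ'] at h5
      exact Ideal.pow_le_pow_right (by omega) h5
    by_cases hc : constantCoeff (tau (P j) l) = 0
    · refine Ideal.sub_mem _ (hFj j hj hc) ?_
      have h5 := kj j hj
      rw [h2 j hc, sub_zero] at h5
      exact Ideal.mul_mem_left _ _ h5
    · have e1 : tau (P j) F0 - tau (P j) l * tau (P j) H =
          (tau (P j) F0 - tau (P j) l * h j) - tau (P j) l * (tau (P j) H - h j) := by ring
      rw [e1]
      exact Ideal.sub_mem _ (h3 j hj hc) (Ideal.mul_mem_left _ _ (kj j hj))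

theorem hc_zero {k : ℕ} {f : MvPolynomial (Fin 2) K} (h : f ∈ (idealOfVars (Fin 2) K) ^ (k + 1)) :
    homogeneousComponent k f = 0 := by
  ext s
  rw [coeff_homogeneousComponent, coeff_zero]
  split_ifs with hs
  · exact (mem_pow_idealOfVars_iff' _ _).1 h s (by omega)
  · rfl

/-- The leading form of `X a ^ k * g`. -/
theorem eval_hc (a : Fin 2) (k : ℕ) (g : MvPolynomial (Fin 2) K) (v : Fin 2 → K) :
    eval v (homogeneousComponent k (X a ^ k * g)) = v a ^ k * constantCoeff g := by
  have h1 : X a ^ k * g = C (constantCoeff g) * X a ^ k + X a ^ k * (g - C (constantCoeff g)) := by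
    ring
  have h2 : g - C (constantCoeff g) ∈ idealOfVars (Fin 2) K := by
    apply mem_one
    simp
  have h3 : X a ^ k * (g - C (constantCoeff g)) ∈ (idealOfVars (Fin 2) K) ^ (k + 1) := by
    rw [pow_succ]
    exact Ideal.mul_mem_mul (Ideal.pow_mem_pow (X_mem a) k) h2
  have h4 : (C (constantCoeff g) * X a ^ k : MvPolynomial (Fin 2) K).IsHomogeneous k := by
    have := ((isHomogeneous_X K a).pow k).C_mul (constantCoeff g)
    rwa [one_mul] at this
  rw [h1, map_add, hc_zero h3, add_zero, homogeneousComponent_of_mem h4, if_pos rfl]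
  simp
  ring

/-- The leading form of a multiple of a linear form. -/
theorem eval_hc_lin {l h : MvPolynomial (Fin 2) K} {k : ℕ} {v : Fin 2 → K}
    (hl : l.IsHomogeneous 1) (hv : eval v l = 0) (hh : h ∈ (idealOfVars (Fin 2) K) ^ k) :
    eval v (homogeneousComponent (k + 1) (l * h)) = 0 := by
  have h1 : l * h = l * homogeneousComponent k h + l * (h - homogeneousComponent k h) := by ring
  have hl1 : l ∈ idealOfVars (Fin 2) K := by
    apply mem_one
    exact hl.coeff_eq_zero (d := 0) (by simp)
  have h2 : h - homogeneousComponent k h ∈ (idealOfVars (Fin 2) K) ^ (k + 1) := by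
    rw [mem_pow_idealOfVars_iff']
    intro s hs
    rw [coeff_sub, coeff_homogeneousComponent]
    split_ifs with hs1
    · rw [sub_self]
    · rw [sub_zero]
      exact (mem_pow_idealOfVars_iff' _ _).1 hh s (by omega)
  have h3 : l * (h - homogeneousComponent k h) ∈ (idealOfVars (Fin 2) K) ^ (k + 1 + 1) := by
    rw [pow_succ']
    exact Ideal.mul_mem_mul hl1 h2
  have h4 : (l * homogeneousComponent k h).IsHomogeneous (k + 1) := by
    have := hl.mul (homogeneousComponent_isHomogeneous k h)
    rwa [add_comm] at this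
  rw [h1, map_add, hc_zero h3, add_zero, homogeneousComponent_of_mem h4, if_pos rfl, map_mul, hv,
    zero_mul]

/-- No line through a point contains two other ones. -/
def GP {n : ℕ} (P : Fin n → Fin 2 → K) : Prop :=
  ∀ p i j, i ≠ p → j ≠ p → i ≠ j →
    (P i 0 - P p 0) * (P j 1 - P p 1) - (P i 1 - P p 1) * (P j 0 - P p 0) ≠ 0

theorem cc_fib (c c' : Fin 2 → K) (a b : K) :
    constantCoeff (tau c' (fib c a b)) = a * (c' 0 - c 0) + b * (c' 1 - c 1) := by
  rw [constCoeff_tau, eval_fib]
  simp

theorem uniq {n : ℕ} {P : Fin n → Fin 2 → K} (hP : GP P) {p i j : Fin n} {a b : K}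
    (hab : a ≠ 0 ∨ b ≠ 0) (hi : i ≠ p) (hj : j ≠ p)
    (h1 : constantCoeff (tau (P i) (fib (P p) a b)) = 0)
    (h2 : constantCoeff (tau (P j) (fib (P p) a b)) = 0) : i = j := by
  by_contra hij
  have h3 := hP p i j hi hj hij
  rw [cc_fib] at h1 h2
  have ha : a * ((P i 0 - P p 0) * (P j 1 - P p 1) - (P i 1 - P p 1) * (P j 0 - P p 0)) = 0 := by
    linear_combination (P j 1 - P p 1) * h1 - (P i 1 - P p 1) * h2
  have hb : b * ((P i 0 - P p 0) * (P j 1 - P p 1) - (P i 1 - P p 1) * (P j 0 - P p 0)) = 0 := by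
    linear_combination (P i 0 - P p 0) * h2 - (P j 0 - P p 0) * h1
  rcases hab with h | h
  · exact h ((mul_eq_zero.1 ha).resolve_right h3)
  · exact h ((mul_eq_zero.1 hb).resolve_right h3)

/-- The factor for the other point of the line. -/
theorem side {n : ℕ} {w : Fin n → ℕ} {P : Fin n → Fin 2 → K} (hP : GP P) {e : ℕ} {p : Fin n}
    (hw0 : w p ≤ e + 1) (hw : ∀ i, i ≠ p → w p + w i ≤ e + 1) {a b : K} (hab : a ≠ 0 ∨ b ≠ 0)
    (Q : Fin 3 → K)
    (hQ : ∀ i, i ≠ p → 0 < w i → ¬ ∃ c : K, Q = c • (![P i 0, P i 1, 1] : Fin 3 → K)) :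
    ∃ (k : ℕ) (B : MvPolynomial (Fin 3) K), w p + k ≤ e + 1 ∧ B.IsHomogeneous k ∧ eval Q B ≠ 0 ∧
      ∀ j, j ≠ p → constantCoeff (tau (P j) (fib (P p) a b)) = 0 →
        tau (P j) B ∈ (idealOfVars (Fin 2) K) ^ (w j) := by
  by_cases hex : ∃ i, i ≠ p ∧ constantCoeff (tau (P i) (fib (P p) a b)) = 0
  · obtain ⟨i, hi, hi'⟩ := hex
    obtain ⟨B, hB1, hB2, hB3⟩ := fac (P i) (w i) Q (hQ i hi)
    refine ⟨w i, B, hw i hi, hB1, hB3, fun j hj hj' => ?_⟩
    obtain rfl := uniq hP hab hi hj hi' hj'
    exact hB2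
  · refine ⟨0, 1, by omega, isHomogeneous_one _ _, by rw [map_one]; exact one_ne_zero,
      fun j hj hj' => absurd ⟨j, hj, hj'⟩ hex⟩

theorem inj_of_gp {n : ℕ} (hn : 3 ≤ n) {P : Fin n → Fin 2 → K} (hP : GP P) :
    Function.Injective P := by
  classical
  intro i j hij
  by_contra hne
  obtain ⟨p, hp⟩ : ∃ p : Fin n, p ∉ ({i, j} : Finset (Fin n)) := by
    by_contra hcon
    push Not at hcon
    have h1 : (Finset.univ : Finset (Fin n)) ⊆ {i, j} := fun x _ => hcon x
    have h2 := Finset.card_le_card h1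
    have h3 := Finset.card_le_two (a := i) (b := j)
    rw [Finset.card_univ, Fintype.card_fin] at h2
    omega
  simp only [Finset.mem_insert, Finset.mem_singleton, not_or] at hp
  apply hP p i j (Ne.symm hp.1) (Ne.symm hp.2) hne
  rw [hij]
  ring

theorem not_mul {c c' : Fin 2 → K} (h : c ≠ c') :
    ¬ ∃ x : K, (![c 0, c 1, 1] : Fin 3 → K) = x • (![c' 0, c' 1, 1] : Fin 3 → K) := by
  rintro ⟨x, hx⟩
  have h2 : x = 1 := by
    have := congrFun hx 2
    simpa using this.symm
  subst h2
  rw [one_smul] at hx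
  apply h
  funext a
  fin_cases a
  · simpa using congrFun hx 0
  · simpa using congrFun hx 1

/-- **The criterion.** -/
theorem smooth_of_fibre [CharZero K] {n : ℕ} {w : Fin n → ℕ} {P : Fin n → Fin 2 → K} (hP : GP P)
    (hinj : Function.Injective P) {e : ℕ} {p : Fin n}
    (hS : Function.Surjective (ev (Function.update w p (w p - 1)) P e)) (hw0 : w p ≤ e + 1)
    (hw : ∀ i, i ≠ p → w p + w i ≤ e + 1) :
    GeneralMember (forms w P (e + 1)) (SmoothMember w P) := by
  classical
  rcases Nat.eq_zero_or_pos (w p) with h0 | hpos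
  · have h1 : Function.update w p (w p - 1) = w := by
      rw [h0]
      show Function.update w p 0 = w
      rw [← h0, Function.update_eq_self]
    rw [h1] at hS
    exact general_smooth hinj (finrank_of_surj hS).le
  refine general_of (fun Q hQ hQ' => ?_) fun i v hv => ?_
  · -- a point outside
    obtain ⟨c, hc⟩ : ∃ c, Q c ≠ 0 := by
      by_contra hcon
      push Not at hcon
      exact hQ (funext hcon)
    have hab : Q 1 - P p 1 * Q 2 ≠ 0 ∨ -(Q 0 - P p 0 * Q 2) ≠ 0 := by
      by_contra hcon
      push Not at hcon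
      obtain ⟨e0, e1⟩ := hcon
      refine hQ' p hpos ⟨Q 2, ?_⟩
      funext j
      fin_cases j
      · simp
        linear_combination -e1
      · simp
        linear_combination e0
      · simp
    obtain ⟨k, B, hk, hB1, hB2, hB3⟩ := side hP hw0 hw hab Q fun i _ hi => hQ' i hi
    obtain ⟨A, hA1, hA2, hA3⟩ := fac (P p) (w p) Q fun h => hQ' p h
    obtain ⟨H, -, -, -, hG⟩ := corr (F0 := A * B * X c ^ (e + 1 - w p - k)) hS
      (fib_homog (P p) (Q 1 - P p 1 * Q 2) (-(Q 0 - P p 0 * Q 2)))
      (by rw [cc_fib]; ring)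
      (by
        have := (hA1.mul hB1).mul ((isHomogeneous_X K c).pow (e + 1 - w p - k))
        rwa [one_mul, show w p + k + (e + 1 - w p - k) = e + 1 by omega] at this)
      (by
        rw [map_mul, map_mul]
        exact Ideal.mul_mem_right _ _ (Ideal.mul_mem_right _ _ hA2))
      (fun j hj hj' => by
        rw [map_mul, map_mul]
        exact Ideal.mul_mem_right _ _ (Ideal.mul_mem_left _ _ (hB3 j hj hj')))
    refine ⟨_, hG, ?_⟩
    rw [map_sub, map_mul (eval Q) (fib _ _ _), eval_fib]
    have e2 : (Q 1 - P p 1 * Q 2) * (Q 0 - P p 0 * Q 2) +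
        -(Q 0 - P p 0 * Q 2) * (Q 1 - P p 1 * Q 2) = 0 := by ring
    rw [e2, zero_mul, sub_zero, map_mul, map_mul, map_pow, eval_X]
    exact mul_ne_zero (mul_ne_zero hA3 hB2) (pow_ne_zero _ hc)
  · obtain ⟨a, ha⟩ : ∃ a, v a ≠ 0 := by
      by_contra hcon
      push Not at hcon
      exact hv (funext hcon)
    by_cases hi : i = p
    · -- a direction at the point `P p`
      subst hi
      have hab : v 1 ≠ 0 ∨ -v 0 ≠ 0 := by
        by_contra hcon
        push Not at hcon
        apply hv
        funext j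
        fin_cases j
        · show v 0 = 0
          linear_combination -hcon.2
        · exact hcon.1
      obtain ⟨k, B, hk, hB1, hB2, hB3⟩ := side hP hw0 hw hab
        (![P i 0, P i 1, 1] : Fin 3 → K) fun j hj _ => not_mul fun h => hj (hinj h).symm
      have hL : ((X (Fin.castSucc a) - C (P i a) * X 2 : MvPolynomial (Fin 3) K) ^
          (w i)).IsHomogeneous (w i) := by
        have := (homog_sub (P i) a).pow (w i)
        rwa [one_mul] at this
      obtain ⟨H, -, hH, -, hG⟩ := corr
        (F0 := (X (Fin.castSucc a) - C (P i a) * X 2) ^ (w i) * (B * X 2 ^ (e + 1 - w i - k))) hS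
        (fib_homog (P i) (v 1) (-v 0))
        (by rw [cc_fib]; ring)
        (by
          have := hL.mul (hB1.mul ((isHomogeneous_X K 2).pow (e + 1 - w i - k)))
          rwa [one_mul, show w i + (k + (e + 1 - w i - k)) = e + 1 by omega] at this)
        (by
          rw [map_mul, map_pow, tau_sub]
          exact Ideal.mul_mem_right _ _ (Ideal.pow_mem_pow (X_mem a) _))
        (fun j hj hj' => by
          rw [map_mul, map_mul]
          exact Ideal.mul_mem_left _ _ (Ideal.mul_mem_right _ _ (hB3 j hj hj')))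
      refine ⟨_, hG, ?_⟩
      obtain ⟨q, hq⟩ : ∃ q, w i = q + 1 := ⟨w i - 1, by omega⟩
      have e1 : w i - 1 = q := by omega
      rw [e1] at hH
      have e3 : eval v (homogeneousComponent (w i)
          (tau (P i) (fib (P i) (v 1) (-v 0)) * tau (P i) H)) = 0 := by
        rw [hq]
        refine eval_hc_lin ?_ ?_ hH
        · rw [tau_fib]
          exact ((isHomogeneous_X K 0).C_mul _).add ((isHomogeneous_X K 1).C_mul _)
        · rw [tau_fib]
          simp
          ring
      rw [map_sub, map_mul (tau (P i)) (fib _ _ _), map_sub, map_sub, e3, sub_zero, map_mul,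
        map_pow, tau_sub, eval_hc, constCoeff_tau, map_mul, map_pow, eval_X]
      refine mul_ne_zero (pow_ne_zero _ ha) (mul_ne_zero hB2 (pow_ne_zero _ ?_))
      simp
    · -- a direction at another point
      have hab : P i 1 - P p 1 ≠ 0 ∨ -(P i 0 - P p 0) ≠ 0 := by
        by_contra hcon
        push Not at hcon
        apply hi
        apply hinj
        funext j
        fin_cases j
        · show P i 0 = P p 0
          linear_combination -hcon.2
        · show P i 1 = P p 1
          linear_combination hcon.1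
      have hci : constantCoeff (tau (P i) (fib (P p) (P i 1 - P p 1) (-(P i 0 - P p 0)))) = 0 := by
        rw [cc_fib]
        ring
      obtain ⟨A, hA1, hA2, hA3⟩ := fac (P p) (w p) (![P i 0, P i 1, 1] : Fin 3 → K)
        fun _ => not_mul fun h => hi (hinj h)
      have hL : ((X (Fin.castSucc a) - C (P i a) * X 2 : MvPolynomial (Fin 3) K) ^
          (w i)).IsHomogeneous (w i) := by
        have := (homog_sub (P i) a).pow (w i)
        rwa [one_mul] at this
      have hwi := hw i hi
      obtain ⟨H, -, -, hH, hG⟩ := corr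
        (F0 := (X (Fin.castSucc a) - C (P i a) * X 2) ^ (w i) * (A * X 2 ^ (e + 1 - w p - w i))) hS
        (fib_homog (P p) (P i 1 - P p 1) (-(P i 0 - P p 0)))
        (by rw [cc_fib]; ring)
        (by
          have := hL.mul (hA1.mul ((isHomogeneous_X K 2).pow (e + 1 - w p - w i)))
          rwa [one_mul, show w i + (w p + (e + 1 - w p - w i)) = e + 1 by omega] at this)
        (by
          rw [map_mul, map_mul]
          exact Ideal.mul_mem_left _ _ (Ideal.mul_mem_right _ _ hA2))
        (fun j hj hj' => by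
          obtain rfl := uniq hP hab hi hj hci hj'
          rw [map_mul, map_pow, tau_sub]
          exact Ideal.mul_mem_right _ _ (Ideal.pow_mem_pow (X_mem a) _))
      refine ⟨_, hG, ?_⟩
      have hH' := hH i hi hci
      have e3 : homogeneousComponent (w i)
          (tau (P i) (fib (P p) (P i 1 - P p 1) (-(P i 0 - P p 0))) * tau (P i) H) = 0 := by
        apply hc_zero
        rw [pow_succ']
        exact Ideal.mul_mem_mul (mem_one hci) hH'
      rw [map_sub, map_mul (tau (P i)) (fib _ _ _), map_sub, e3, sub_zero, map_mul,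
        map_pow, tau_sub, eval_hc, constCoeff_tau, map_mul, map_pow, eval_X]
      refine mul_ne_zero (pow_ne_zero _ ha) (mul_ne_zero hA3 (pow_ne_zero _ ?_))
      simp

end Pool.Agent.H902.SM
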