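import Pool.Agent.H902.SM.Up
import Pool.Agent.H902.CB.Euc

set_option autoImplicit false

/-!
# Smooth general members: one arbitrary multiplicity, the others at most `b = d - m 1`, `χ` large
-/

namespace Pool.Agent.H902.SM

open MvPolynomial Pool.Agent.H248R5 Pool.Agent.H248R6
open Pool.Agent.H902.CB (cM cM_cons vals_fcons far_plane gen_iff EIM_iff cond_cM)

/-- The numerical condition: `3 χ (D - F) ≥ b (b + 1) ^ 2 (b + 2)`. -/
def Far {n : ℕ} (b : ℕ) (v : Fin n → ℕ) (c : ℕ) : Prop :=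
  3 * ((c + 1).choose 2 + ∑ i, (v i + 1).choose 2) + b * (b + 1) ^ 2 * (b + 2) ≤
    3 * (c + b + 2).choose 2

theorem surj_far {n b c : ℕ} {v : Fin n → ℕ} (hv : ∀ i, v i ≤ b) (h : Far b v c) :
    ∃ F : MvPolynomial (Fin (n + 1) × Fin 2) ℂ, F ≠ 0 ∧ ∀ P : Fin (n + 1) → Fin 2 → ℂ,
      eval (fun ij : Fin (n + 1) × Fin 2 => P ij.1 ij.2) F ≠ 0 →
        Function.Surjective (ev (Fin.cons c v : Fin (n + 1) → ℕ) P (c + b)) := by
  unfold Far at h
  have h0 : (∑ i, (v i + 1).choose 2) = cM ((Finset.univ : Finset (Fin n)).val.map v) :=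
    cond_cM rfl
  have h1 := far_plane (b := b) (c := c) (s := (Finset.univ : Finset (Fin n)).val.map v)
    (fun x hx => by
      rw [Multiset.mem_map] at hx
      obtain ⟨i, _, rfl⟩ := hx
      exact hv i) (Or.inr (by rw [← h0]; exact h))
  rw [EIM_iff (vals_fcons c v)] at h1
  obtain ⟨F, hF, hF'⟩ := gen_iff.2 h1
  refine ⟨F, hF, fun P hP => Pool.Agent.Q78.SG.surj_of_exp (hF' P hP) ?_⟩
  rw [Fin.sum_univ_succ]
  simp only [Fin.cons_zero, Fin.cons_succ]
  omega

theorem far_up {n b c : ℕ} {v : Fin n → ℕ} (h : Far b v c) : Far b v (c + 1) := by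
  unfold Far at h ⊢
  have h1 : (c + 1 + 1).choose 2 = (c + 1) + (c + 1).choose 2 := by
    rw [Nat.choose_succ_succ' (c + 1) 1, Nat.choose_one_right]
  have h2 : (c + 1 + b + 2).choose 2 = (c + b + 2) + (c + b + 2).choose 2 := by
    rw [show c + 1 + b + 2 = (c + b + 2) + 1 by ring, Nat.choose_succ_succ' (c + b + 2) 1,
      Nat.choose_one_right]
  rw [h1, h2]
  omega

/-- **The family.** -/
theorem family_far {n : ℕ} (hn : 2 ≤ n) {b : ℕ} {v : Fin n → ℕ} (hv : ∀ i, v i ≤ b) :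
    ∃ F : MvPolynomial (Fin (n + 1) × Fin 2) ℂ, F ≠ 0 ∧ ∀ P : Fin (n + 1) → Fin 2 → ℂ,
      eval (fun ij : Fin (n + 1) × Fin 2 => P ij.1 ij.2) F ≠ 0 → ∀ c : ℕ, Far b v c →
        Module.finrank ℂ ↥(forms (Fin.cons (c + 1) v : Fin (n + 1) → ℕ) P (c + b + 1)) +
            ∑ i, ((Fin.cons (c + 1) v : Fin (n + 1) → ℕ) i + 1).choose 2 =
              (c + b + 1 + 2).choose 2 ∧
          GeneralMember (forms (Fin.cons (c + 1) v : Fin (n + 1) → ℕ) P (c + b + 1))
            (SmoothMember (Fin.cons (c + 1) v : Fin (n + 1) → ℕ) P) := by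
  classical
  by_cases hex : ∃ c, Far b v c
  swap
  · exact ⟨1, one_ne_zero, fun P _ c h => absurd ⟨c, h⟩ hex⟩
  obtain ⟨G, hG, hG'⟩ := surj_far hv (Nat.find_spec hex)
  refine ⟨G * gpoly ℂ (n + 1), mul_ne_zero hG (gpoly_ne (n + 1)), fun P hP c hc => ?_⟩
  rw [map_mul] at hP
  have hgp : GP P := gp_of (right_ne_zero_of_mul hP)
  have hinj := inj_of_gp (by omega) hgp
  have hS0 := hG' P (left_ne_zero_of_mul hP)
  have hSk : ∀ k, Function.Surjective
      (ev (Fin.cons (Nat.find hex + k) v : Fin (n + 1) → ℕ) P (Nat.find hex + b + k)) := by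
    intro k
    induction k with
    | zero => exact hS0
    | succ k ih =>
      have h1 := surj_up hinj (p := 0) (by rw [Fin.cons_zero]; omega) ih
      rw [Fin.cons_zero, Fin.update_cons_zero] at h1
      exact h1
  obtain ⟨k, rfl⟩ : ∃ k, c = Nat.find hex + k := ⟨c - Nat.find hex, by
    have := Nat.find_min' hex hc
    omega⟩
  have hS := hSk k
  rw [show Nat.find hex + b + k = Nat.find hex + k + b by ring] at hS
  constructor
  · apply finrank_of_surj
    have h1 := surj_up hinj (p := 0) (by rw [Fin.cons_zero]; omega) hS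
    rw [Fin.cons_zero, Fin.update_cons_zero] at h1
    exact h1
  · refine smooth_of_fibre hgp hinj (p := 0) ?_ ?_ fun i hi => ?_
    · rw [Fin.cons_zero, Fin.update_cons_zero, Nat.add_sub_cancel]
      exact hS
    · rw [Fin.cons_zero]
      omega
    · obtain ⟨j, rfl⟩ := Fin.exists_succ_eq.2 hi
      rw [Fin.cons_zero, Fin.cons_succ]
      have := hv j
      omega

end Pool.Agent.H902.SM
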